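import Mathlib

/-!
A pointwise inequality for the powers `9/7` (block B2 of the group-pluriharmonic theorem).
-/

set_option autoImplicit false

namespace Pool.Agent.PLH

open ComplexConjugate

/-- the function `t ↦ (A + t) ^ s - A ^ s` divided by `t ^ s` is increasing -/
lemma ptp_scale {A t l s : ℝ} (hA : 0 ≤ A) (ht : 0 ≤ t) (hl : 0 < l) (hl1 : l < 1) (hs : 0 ≤ s)
    (hs1 : s ≤ 1) : (A + l * t) ^ s - A ^ s ≤ l ^ s * ((A + t) ^ s - A ^ s) := by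
  have e1 : l ^ s * (A + t) ^ s = (l * A + l * t) ^ s := by
    rw [← Real.mul_rpow hl.le (by positivity)]; congr 1; ring
  have e2 : l ^ s * A ^ s = (l * A) ^ s := (Real.mul_rpow hl.le hA).symm
  have key : (A + l * t) ^ s + (l * A) ^ s ≤ A ^ s + (l * A + l * t) ^ s := by
    rcases eq_or_lt_of_le (show 0 ≤ (1 - l) * A + l * t by nlinarith [mul_nonneg hl.le ht]) with h | h
    · have h1 : 0 ≤ (1 - l) * A := mul_nonneg (by linarith) hA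
      have h2 : 0 ≤ l * t := mul_nonneg hl.le ht
      have h3 : l * t = 0 := by linarith
      have h4 : (1 - l) * A = 0 := by linarith
      have h5 : l * A = A := by linarith
      rw [h3, h5, add_zero]
    · obtain ⟨D, hD⟩ : ∃ D, D = (1 - l) * A + l * t := ⟨_, rfl⟩
      rw [← hD] at h
      have hc := Real.concaveOn_rpow hs hs1
      have hX : A + l * t ∈ Set.Ici (0:ℝ) := Set.mem_Ici.2 (by positivity)
      have hY : l * A ∈ Set.Ici (0:ℝ) := Set.mem_Ici.2 (by positivity)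
      have p1 : 0 ≤ (1 - l) * A / D := div_nonneg (mul_nonneg (by linarith) hA) h.le
      have p2 : 0 ≤ l * t / D := div_nonneg (mul_nonneg hl.le ht) h.le
      have p3 : (1 - l) * A / D + l * t / D = 1 := by
        rw [← add_div, ← hD, div_self h.ne']
      have i1 := hc.2 hX hY p1 p2 p3
      have i2 := hc.2 hX hY p2 p1 (by linarith)
      simp only [smul_eq_mul] at i1 i2
      have j1 : (1 - l) * A / D * (A + l * t) + l * t / D * (l * A) = A := by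
        rw [div_mul_eq_mul_div, div_mul_eq_mul_div, ← add_div, div_eq_iff h.ne', hD]; ring
      have j2 : l * t / D * (A + l * t) + (1 - l) * A / D * (l * A) = l * A + l * t := by
        rw [div_mul_eq_mul_div, div_mul_eq_mul_div, ← add_div, div_eq_iff h.ne', hD]; ring
      rw [j1] at i1
      rw [j2] at i2
      have : (1 - l) * A / D * (A + l * t) ^ s + l * t / D * (l * A) ^ s
          + (l * t / D * (A + l * t) ^ s + (1 - l) * A / D * (l * A) ^ s)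
          = (A + l * t) ^ s + (l * A) ^ s := by
        have : (1 - l) * A / D = 1 - l * t / D := by linarith
        rw [this]; ring
      linarith
  rw [mul_sub, e1, e2]
  linarith

/-- Bernoulli's inequality for `5/7` -/
lemma ptp_bern {a r : ℝ} (ha : 0 < a) (hr : 0 ≤ r) :
    a * r ^ (5 / 7 : ℝ) ≤ a ^ (5 / 7 : ℝ) * ((5 * r + 2 * a) / 7) := by
  have h := rpow_one_add_le_one_add_mul_self (s := r / a - 1)
    (by have : 0 ≤ r / a := div_nonneg hr ha.le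
        linarith) (p := 5 / 7) (by norm_num) (by norm_num)
  have e : r ^ (5 / 7 : ℝ) = a ^ (5 / 7 : ℝ) * (1 + (r / a - 1)) ^ (5 / 7 : ℝ) := by
    rw [← Real.mul_rpow ha.le (by rw [add_sub_cancel]; positivity)]
    congr 1
    field_simp
    ring
  rw [e]
  have h2 := mul_le_mul_of_nonneg_left h (Real.rpow_nonneg ha.le (5 / 7))
  have h3 := mul_le_mul_of_nonneg_left h2 ha.le
  refine h3.trans (le_of_eq ?_)
  field_simp
  ring

/-- the tangent of `x ^ (9/7)`, as a function of `x ^ 2` -/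
lemma ptp_tang {R X b : ℝ} (hR : 0 < R) (hX : 0 ≤ X) (h : X ^ 2 = R ^ 2 + 2 * b) :
    X ^ (9 / 7 : ℝ) ≤ R ^ (9 / 7 : ℝ) + 9 / 7 * R ^ (-(5 / 7) : ℝ) * b := by
  have hs : -1 ≤ 2 * b / R ^ 2 := by
    rw [le_div_iff₀ (by positivity)]
    nlinarith [sq_nonneg X]
  have hB := rpow_one_add_le_one_add_mul_self hs (p := 9 / 14) (by norm_num) (by norm_num)
  have e1 : X ^ (9 / 7 : ℝ) = (X ^ 2) ^ (9 / 14 : ℝ) := by
    rw [← Real.rpow_natCast X 2, ← Real.rpow_mul hX]; norm_num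
  have e2 : R ^ (9 / 7 : ℝ) = (R ^ 2) ^ (9 / 14 : ℝ) := by
    rw [← Real.rpow_natCast R 2, ← Real.rpow_mul hR.le]; norm_num
  have e3 : X ^ 2 = R ^ 2 * (1 + 2 * b / R ^ 2) := by
    rw [h]; field_simp
  have e4 : R ^ (-(5 / 7) : ℝ) = R ^ (9 / 7 : ℝ) / R ^ 2 := by
    rw [← Real.rpow_natCast R 2, ← Real.rpow_sub hR]; norm_num
  rw [e1, e3, Real.mul_rpow (by positivity) (by linarith), ← e2, e4]
  have h2 := mul_le_mul_of_nonneg_left hB (Real.rpow_nonneg hR.le (9 / 7))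
  refine h2.trans (le_of_eq ?_)
  field_simp
  ring

/-- the linear terms -/
lemma ptp_lin {a q r : ℝ} (ha : 0 < a) (hq : 0 ≤ q) (hr : 0 < r) (h : r ^ 2 = a ^ 2 + q ^ 2) :
    a * q * (a ^ (-(5 / 7) : ℝ) - r ^ (-(5 / 7) : ℝ)) ≤ r ^ (9 / 7 : ℝ) - a ^ (9 / 7 : ℝ) := by
  have ep : ∀ x : ℝ, 0 < x → x ^ (-(5 / 7) : ℝ) = (x ^ (5 / 7 : ℝ))⁻¹ := fun x hx =>
    Real.rpow_neg hx.le _
  have eq : ∀ x : ℝ, 0 < x → x ^ (9 / 7 : ℝ) = x ^ 2 * (x ^ (5 / 7 : ℝ))⁻¹ := fun x hx => by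
    rw [← Real.rpow_natCast x 2, ← Real.rpow_neg hx.le, ← Real.rpow_add hx]; norm_num
  rw [ep a ha, ep r hr, eq a ha, eq r hr]
  obtain ⟨P, hP⟩ : ∃ P, P = r ^ (5 / 7 : ℝ) := ⟨_, rfl⟩
  obtain ⟨Q, hQ⟩ : ∃ Q, Q = a ^ (5 / 7 : ℝ) := ⟨_, rfl⟩
  have hP0 : 0 < P := hP ▸ Real.rpow_pos_of_pos hr _
  have hQ0 : 0 < Q := hQ ▸ Real.rpow_pos_of_pos ha _
  have hb := ptp_bern ha hr.le
  rw [← hP, ← hQ] at hb ⊢
  have hra : a ≤ r := by nlinarith [sq_nonneg q]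
  have hpoly : (5 * r + 2 * a) * (q + a) ≤ 7 * (r ^ 2 + a * q) := by
    have h1 : 5 * (r * (q + a)) ≤ 5 * (a ^ 2 + a * q) + 7 * q ^ 2 := by
      have h0 : 0 ≤ 5 * (a ^ 2 + a * q) + 7 * q ^ 2 := by positivity
      refine abs_le_of_sq_le_sq' ?_ h0 |>.2
      have : (5 * (a ^ 2 + a * q) + 7 * q ^ 2) ^ 2 - (5 * (r * (q + a))) ^ 2
          = q ^ 2 * (45 * a ^ 2 + 20 * (a * q) + 24 * q ^ 2) := by
        have : (5 * (r * (q + a))) ^ 2 = 25 * (a ^ 2 + q ^ 2) * (q + a) ^ 2 := by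
          rw [← h]; ring
        rw [this]; ring
      have h3 : 0 ≤ q ^ 2 * (45 * a ^ 2 + 20 * (a * q) + 24 * q ^ 2) := by positivity
      linarith
    nlinarith [h1]
  have key : P * (a * (q + a)) ≤ Q * (r ^ 2 + a * q) := by
    have h1 : a * P * (q + a) ≤ Q * ((5 * r + 2 * a) / 7) * (q + a) :=
      mul_le_mul_of_nonneg_right hb (by linarith)
    have h2 : Q * ((5 * r + 2 * a) / 7 * (q + a)) ≤ Q * (r ^ 2 + a * q) :=
      mul_le_mul_of_nonneg_left (by linarith) hQ0.le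
    calc P * (a * (q + a)) = a * P * (q + a) := by ring
      _ ≤ Q * ((5 * r + 2 * a) / 7) * (q + a) := h1
      _ = Q * ((5 * r + 2 * a) / 7 * (q + a)) := by ring
      _ ≤ _ := h2
  have : r ^ 2 * P⁻¹ - a ^ 2 * Q⁻¹ - a * q * (Q⁻¹ - P⁻¹)
      = (Q * (r ^ 2 + a * q) - P * (a * (q + a))) * (P⁻¹ * Q⁻¹) := by
    field_simp
    ring
  have h3 : 0 ≤ (Q * (r ^ 2 + a * q) - P * (a * (q + a))) * (P⁻¹ * Q⁻¹) :=
    mul_nonneg (by linarith) (by positivity)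
  linarith

lemma ptp_num : 16 / 7 * (1 / 1024 : ℝ) ^ (9 / 14 : ℝ) ≤ 1 / 21 := by
  have h1 : (1 / 1024 : ℝ) ^ (9 / 14 : ℝ) ≤ (1 / 1024 : ℝ) ^ (3 / 5 : ℝ) :=
    Real.rpow_le_rpow_of_exponent_ge (by norm_num) (by norm_num) (by norm_num)
  have h2 : (1 / 1024 : ℝ) ^ (3 / 5 : ℝ) = 1 / 64 := by
    have : (1 / 1024 : ℝ) = (1 / 2 : ℝ) ^ (10 : ℝ) := by norm_num
    rw [this, ← Real.rpow_mul (by norm_num)]
    have : (10 : ℝ) * (3 / 5) = ((6 : ℕ) : ℝ) := by norm_num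
    rw [this, Real.rpow_natCast]
    norm_num
  rw [h2] at h1
  linarith

theorem ptp (c w : ℂ) : ‖c + (1 / 32) * w‖ ^ (9 / 7 : ℝ) ≤ ‖c‖ ^ (9 / 7 : ℝ)
    + (9 / 7) * ‖c‖ ^ (-(5 / 7) : ℝ) * (conj c * ((1 / 32) * w)).re
    + (1 / 21) * ((‖c‖ ^ 2 + ‖w‖ ^ 2) ^ (9 / 14 : ℝ) - ‖c‖ ^ (9 / 7 : ℝ)) := by
  obtain ⟨u, hu⟩ : ∃ u : ℂ, u = (1 / 32) * w := ⟨_, rfl⟩
  rw [← hu]
  have hw : ‖u‖ ^ 2 = 1 / 1024 * ‖w‖ ^ 2 := by
    rw [hu, norm_mul, mul_pow]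
    norm_num
  obtain ⟨a, ha⟩ : ∃ a, a = ‖c‖ := ⟨_, rfl⟩
  obtain ⟨q, hq⟩ : ∃ q, q = ‖u‖ := ⟨_, rfl⟩
  obtain ⟨b, hb⟩ : ∃ b, b = (conj c * u).re := ⟨_, rfl⟩
  obtain ⟨r, hr⟩ : ∃ r, r = Real.sqrt (a ^ 2 + q ^ 2) := ⟨_, rfl⟩
  have ha0 : 0 ≤ a := ha ▸ norm_nonneg _
  have hq0 : 0 ≤ q := hq ▸ norm_nonneg _
  have hr0 : 0 ≤ r := hr ▸ Real.sqrt_nonneg _
  have hr2 : r ^ 2 = a ^ 2 + q ^ 2 := by rw [hr, Real.sq_sqrt (by positivity)]
  have hbabs : |b| ≤ a * q := by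
    rw [hb, ha, hq]
    calc |(conj c * u).re| ≤ ‖conj c * u‖ := Complex.abs_re_le_norm _
      _ = ‖c‖ * ‖u‖ := by rw [norm_mul, Complex.norm_conj]
  have hsum : ‖c + u‖ ^ 2 = r ^ 2 + 2 * b := by
    rw [hr2, ha, hq, hb, ← Complex.normSq_eq_norm_sq, ← Complex.normSq_eq_norm_sq,
      ← Complex.normSq_eq_norm_sq, Complex.normSq_add]
    have : (c * conj u).re = (conj c * u).re := by
      simp [Complex.mul_re]
    rw [this]
  have hphi : r ^ (9 / 7 : ℝ) - a ^ (9 / 7 : ℝ)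
      ≤ (1 / 1024 : ℝ) ^ (9 / 14 : ℝ) * ((a ^ 2 + ‖w‖ ^ 2) ^ (9 / 14 : ℝ) - a ^ (9 / 7 : ℝ)) := by
    have e1 : r ^ (9 / 7 : ℝ) = (a ^ 2 + 1 / 1024 * ‖w‖ ^ 2) ^ (9 / 14 : ℝ) := by
      rw [← hw, ← hq, ← hr2, ← Real.rpow_natCast r 2, ← Real.rpow_mul hr0]; norm_num
    have e2 : a ^ (9 / 7 : ℝ) = (a ^ 2) ^ (9 / 14 : ℝ) := by
      rw [← Real.rpow_natCast a 2, ← Real.rpow_mul ha0]; norm_num
    rw [e1, e2]
    exact ptp_scale (by positivity) (by positivity) (by norm_num) (by norm_num) (by norm_num)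
      (by norm_num)
  have hphi0 : 0 ≤ (a ^ 2 + ‖w‖ ^ 2) ^ (9 / 14 : ℝ) - a ^ (9 / 7 : ℝ) := by
    have e2 : a ^ (9 / 7 : ℝ) = (a ^ 2) ^ (9 / 14 : ℝ) := by
      rw [← Real.rpow_natCast a 2, ← Real.rpow_mul ha0]; norm_num
    rw [e2, sub_nonneg]
    exact Real.rpow_le_rpow (by positivity) (by nlinarith [sq_nonneg ‖w‖]) (by norm_num)
  have hfin : 16 / 7 * (r ^ (9 / 7 : ℝ) - a ^ (9 / 7 : ℝ))
      ≤ 1 / 21 * ((a ^ 2 + ‖w‖ ^ 2) ^ (9 / 14 : ℝ) - a ^ (9 / 7 : ℝ)) := by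
    calc 16 / 7 * (r ^ (9 / 7 : ℝ) - a ^ (9 / 7 : ℝ))
        ≤ 16 / 7 * ((1 / 1024 : ℝ) ^ (9 / 14 : ℝ)
          * ((a ^ 2 + ‖w‖ ^ 2) ^ (9 / 14 : ℝ) - a ^ (9 / 7 : ℝ))) := by linarith
      _ = 16 / 7 * (1 / 1024 : ℝ) ^ (9 / 14 : ℝ)
          * ((a ^ 2 + ‖w‖ ^ 2) ^ (9 / 14 : ℝ) - a ^ (9 / 7 : ℝ)) := by ring
      _ ≤ _ := mul_le_mul_of_nonneg_right ptp_num hphi0
  rw [← ha, ← hb]
  rcases eq_or_lt_of_le ha0 with h0 | h0
  · -- `c = 0`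
    have hb0 : b = 0 := by
      have : |b| ≤ 0 := by rw [← h0, zero_mul] at hbabs; exact hbabs
      exact abs_nonpos_iff.1 this
    have hX : ‖c + u‖ = r := by
      have : ‖c + u‖ ^ 2 = r ^ 2 := by rw [hsum, hb0]; ring
      exact (sq_eq_sq₀ (norm_nonneg _) hr0).1 this
    rw [hX, hb0, mul_zero, add_zero]
    have hge : 0 ≤ r ^ (9 / 7 : ℝ) - a ^ (9 / 7 : ℝ) := by
      rw [← h0, Real.zero_rpow (by norm_num), sub_zero]; positivity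
    linarith
  · have hr1 : 0 < r := by
      rcases eq_or_lt_of_le hr0 with h | h
      · exfalso
        rw [← h] at hr2
        nlinarith [sq_nonneg q]
      · exact h
    have har : a ≤ r := by nlinarith [sq_nonneg q]
    have hT := ptp_tang hr1 (norm_nonneg (c + u)) hsum
    have hL := ptp_lin h0 hq0 hr1 hr2
    have hmono : r ^ (-(5 / 7) : ℝ) ≤ a ^ (-(5 / 7) : ℝ) :=
      Real.rpow_le_rpow_of_nonpos h0 har (by norm_num)
    have hb1 : b * (r ^ (-(5 / 7) : ℝ) - a ^ (-(5 / 7) : ℝ))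
        ≤ a * q * (a ^ (-(5 / 7) : ℝ) - r ^ (-(5 / 7) : ℝ)) := by
      have h1 : -b ≤ a * q := (neg_le_abs b).trans hbabs
      have h2 := mul_le_mul_of_nonneg_right h1 (sub_nonneg.2 hmono)
      linarith
    have : 9 / 7 * r ^ (-(5 / 7) : ℝ) * b - 9 / 7 * a ^ (-(5 / 7) : ℝ) * b
        = 9 / 7 * (b * (r ^ (-(5 / 7) : ℝ) - a ^ (-(5 / 7) : ℝ))) := by ring
    linarith

end Pool.Agent.PLH
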